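import Mathlib
import Pool.Agent.R359.Emu

/-!
# MP_c8ce56_lc, Q1

The `ω₁`-ballean of `S_ω` is emu-bounded if and only if the continuum hypothesis fails
(`ℵ₁ < 𝔠`).  So emu-boundedness is not a theorem of ZFC (it fails under CH), it holds in every
model of `¬ CH`.
-/

open Cardinal

namespace Pool.Agent.Results.MP_c8ce56_lc.EmuIffNotCH

/-- **Theorem.** The `ω₁`-ballean of the group of all permutations of `ℕ` is emu-bounded if and
only if `ℵ₁ < 2^{ℵ₀}`, that is, if and only if CH fails. -/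
theorem result :
    Pool.Agent.R359.Emu.EmuBounded (Equiv.Perm ℕ) ℵ₁ ↔ (ℵ₁ : Cardinal.{0}) < 𝔠 :=
  Pool.Agent.R359.Emu.main

end Pool.Agent.Results.MP_c8ce56_lc.EmuIffNotCH
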